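import Pool.Agent.Lib.NLK.Acn

/-!
# NLK / Acs: the finite quotients are soluble
-/

set_option autoImplicit false

namespace NLK

open Module

open scoped commutatorElement

section

variable (κ : Type) (p : ℕ) [Fact p.Prime]

/-- the subgroup of the elements which are one modulo a two-sided ideal -/
def KQ (Q : Submodule (ZMod p) (R κ p)) (hQ : TwoSided κ p Q) : Subgroup (FreeGroup κ) where
  carrier := {g | u κ p g - 1 ∈ Q}
  mul_mem' := by
    intro g h hg hh
    change u κ p (g * h) - 1 ∈ Q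
    have h1 : u κ p (g * h) - 1 = (u κ p g - 1) * u κ p h + (u κ p h - 1) := by
      rw [u_mul, sub_mul, one_mul]
      abel
    rw [h1]
    exact Q.add_mem (hQ.r _ _ hg) hh
  one_mem' := by
    change u κ p 1 - 1 ∈ Q
    rw [u_one, sub_self]
    exact Q.zero_mem
  inv_mem' := by
    intro g hg
    change u κ p g⁻¹ - 1 ∈ Q
    have h1 : u κ p g⁻¹ - 1 = -(u κ p g⁻¹ * (u κ p g - 1)) := by
      rw [mul_sub, u_inv_mul, mul_one]
      abel
    rw [h1]
    exact Q.neg_mem (hQ.l _ _ hg)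

theorem mem_KQ (Q : Submodule (ZMod p) (R κ p)) (hQ : TwoSided κ p Q) (g : (FreeGroup κ)) : g ∈ KQ κ p Q hQ ↔ u κ p g - 1 ∈ Q := Iff.rfl

theorem comm_mem (Q : Submodule (ZMod p) (R κ p)) (hQ : TwoSided κ p Q) (a b : (FreeGroup κ)) (h1 : (u κ p a - 1) * (u κ p b - 1) ∈ Q)
    (h2 : (u κ p b - 1) * (u κ p a - 1) ∈ Q) : u κ p ⁅a, b⁆ - 1 ∈ Q := by
  have e : u κ p ⁅a, b⁆ - 1 = ((u κ p a - 1) * (u κ p b - 1) - (u κ p b - 1) * (u κ p a - 1)) * u κ p (b * a)⁻¹ := by
    have e1 : (u κ p a - 1) * (u κ p b - 1) - (u κ p b - 1) * (u κ p a - 1) = u κ p (a * b) - u κ p (b * a) := by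
      rw [u_mul, u_mul]
      noncomm_ring
    rw [e1, sub_mul, ← u_mul, ← u_mul, mul_inv_cancel, u_one]
    congr 2
    rw [commutatorElement_def]
    group
  rw [e]
  exact hQ.r _ _ (Q.sub_mem h1 h2)

theorem der_mem (I : Submodule (ZMod p) (R κ p)) (hI : TwoSided κ p I) (d : ℕ) (hd : ∀ g ∈ derivedSeries (FreeGroup κ) d, u κ p g - 1 ∈ I) (n : ℕ) :
    ∀ g ∈ derivedSeries (FreeGroup κ) (d + n), u κ p g - 1 ∈ Iw κ p I (n + 1) := by
  induction n with
  | zero =>
    intro g hg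
    rw [zero_add, Iw_one κ p I hI]
    exact hd g hg
  | succ n ih =>
    have h : derivedSeries (FreeGroup κ) (d + n + 1) ≤ KQ κ p (Iw κ p I (n + 1 + 1)) (Iw_two κ p I hI _) := by
      rw [derivedSeries_succ]
      refine Subgroup.commutator_le.2 fun a ha b hb => ?_
      rw [mem_KQ]
      refine comm_mem κ p _ (Iw_two κ p I hI _) a b ?_ ?_
      · exact Iw_anti κ p I hI (by omega) (Iw_mul κ p I hI (ih a ha) (ih b hb))
      · exact Iw_anti κ p I hI (by omega) (Iw_mul κ p I hI (ih b hb) (ih a ha))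
    exact fun g hg => h hg

theorem sol_of (G : Type) [Group G] (ρ : (FreeGroup κ) →* G) (hs : Function.Surjective ρ) (m : ℕ) (h : ∀ g ∈ derivedSeries (FreeGroup κ) m, ρ g = 1) :
    Group.IsSolvable G := by
  refine ⟨m, ?_⟩
  rw [← map_derivedSeries_eq hs, eq_bot_iff]
  rintro _ ⟨g, hg, rfl⟩
  exact Subgroup.mem_bot.2 (h g hg)

private theorem J_two (V : Submodule (ZMod p) (R κ p)) : TwoSided κ p (Jd κ p V) := by
  constructor
  · intro a x hx
    induction hx using Submodule.span_induction with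
    | mem x hx =>
      obtain ⟨a', b', v, hv, rfl⟩ := hx
      exact Submodule.subset_span ⟨a * a', b', v, hv, by simp only [mul_assoc]⟩
    | zero => rw [mul_zero]; exact Submodule.zero_mem _
    | add x y _ _ hx hy => rw [mul_add]; exact Submodule.add_mem _ hx hy
    | smul c x _ hx => rw [mul_smul_comm]; exact Submodule.smul_mem _ _ hx
  · intro b x hx
    induction hx using Submodule.span_induction with
    | mem x hx =>
      obtain ⟨a, b', v, hv, rfl⟩ := hx
      exact Submodule.subset_span ⟨a, b' * b, v, hv, by simp only [mul_assoc]⟩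
    | zero => rw [zero_mul]; exact Submodule.zero_mem _
    | add x y _ _ hx hy => rw [add_mul]; exact Submodule.add_mem _ hx hy
    | smul c x _ hx => rw [smul_mul_assoc]; exact Submodule.smul_mem _ _ hx

theorem act_homs (I V : Submodule (ZMod p) (R κ p)) (hI : TwoSided κ p I) (n : ℕ)
    (hfin : FiniteDimensional (ZMod p) (R κ p ⧸ (Jd κ p V ⊔ Iw κ p I n))) :
    ∃ (G : Type) (_ : Group G) (ρ : (FreeGroup κ) →* G), Finite G ∧ Function.Surjective ρ ∧
      (∀ g, u κ p g - 1 ∈ V → ρ g = 1) ∧ (∀ g, u κ p g - 1 ∈ Iw κ p I n → ρ g = 1) ∧ bI κ p I V n ≤ Nat.card G := by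
  have hJ := J_two κ p V
  have hW := Iw_two κ p I hI n
  have hQ : TwoSided κ p (Jd κ p V ⊔ Iw κ p I n) := by
    constructor
    · intro a x hx
      obtain ⟨y, hy, z, hz, rfl⟩ := Submodule.mem_sup.1 hx
      rw [mul_add]
      exact Submodule.add_mem_sup (hJ.l _ _ hy) (hW.l _ _ hz)
    · intro a x hx
      obtain ⟨y, hy, z, hz, rfl⟩ := Submodule.mem_sup.1 hx
      rw [add_mul]
      exact Submodule.add_mem_sup (hJ.r _ _ hy) (hW.r _ _ hz)
  obtain ⟨K, hK, hn, hf, hidx⟩ := exists_KSf κ p _ hQ hfin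
  refine ⟨(FreeGroup κ) ⧸ K, inferInstance, QuotientGroup.mk' K, Subgroup.finite_quotient_of_finiteIndex,
    QuotientGroup.mk'_surjective K, ?_, ?_, hidx⟩
  · intro g hg
    refine (QuotientGroup.eq_one_iff g).2 ((hK g).2 (Submodule.mem_sup_left ?_))
    exact Submodule.subset_span ⟨1, 1, u κ p g - 1, hg, by rw [one_mul, mul_one]⟩
  · intro g hg
    exact (QuotientGroup.eq_one_iff g).2 ((hK g).2 (Submodule.mem_sup_right hg))

end

end NLK
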