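import Mathlib

/-!
# NLK / Defs: Golod and Shafarevich relative to an ideal of finite codimension, free groups of any rank

`R κ p` is the group algebra of the free group on the set `κ` over the field with `p` elements, `u κ p g` the group element `g` in it.
-/

set_option autoImplicit false

namespace NLK

open Module

/-- the group algebra of the free group over the field with `p` elements -/
abbrev R (κ : Type) (p : ℕ) : Type := MonoidAlgebra (ZMod p) (FreeGroup κ)

section

variable (κ : Type) (p : ℕ) [Fact p.Prime]

/-- a group element in the group algebra -/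
noncomputable def u (g : (FreeGroup κ)) : R κ p := MonoidAlgebra.single g 1

theorem u_one : u κ p 1 = 1 := rfl

theorem u_mul (g h : (FreeGroup κ)) : u κ p (g * h) = u κ p g * u κ p h := by
  rw [u, u, u, MonoidAlgebra.single_mul_single, one_mul]

theorem u_inv_mul (g : (FreeGroup κ)) : u κ p g⁻¹ * u κ p g = 1 := by
  rw [← u_mul, inv_mul_cancel, u_one]

theorem u_mul_inv (g : (FreeGroup κ)) : u κ p g * u κ p g⁻¹ = 1 := by
  rw [← u_mul, mul_inv_cancel, u_one]

theorem u_pow (g : (FreeGroup κ)) (n : ℕ) : u κ p (g ^ n) = u κ p g ^ n := by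
  induction n with
  | zero => simp [u_one]
  | succ n ih => rw [pow_succ, pow_succ, u_mul, ih]

/-- the linear extension of a function on the group -/
noncomputable def ext {M : Type} [AddCommGroup M] [Module (ZMod p) M] (f : (FreeGroup κ) → M) : R κ p →ₗ[ZMod p] M where
  toFun a := a.coeff.sum fun g c => c • f g
  map_add' a b := by
    rw [MonoidAlgebra.coeff_add, Finsupp.sum_add_index'] <;> intros <;> simp [add_smul]
  map_smul' c a := by
    rw [MonoidAlgebra.coeff_smul, Finsupp.sum_smul_index', Finsupp.smul_sum, RingHom.id_apply]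
    · exact Finsupp.sum_congr fun g _ => by rw [smul_eq_mul, mul_smul]
    · intro g
      simp

theorem ext_u {M : Type} [AddCommGroup M] [Module (ZMod p) M] (f : (FreeGroup κ) → M) (g : (FreeGroup κ)) : ext κ p f (u κ p g) = f g := by
  show (Finsupp.single g (1 : ZMod p)).sum (fun g c => c • f g) = f g
  rw [Finsupp.sum_single_index] <;> simp

/-- two linear maps which agree on the group are equal -/
theorem ext_unique {M : Type} [AddCommGroup M] [Module (ZMod p) M] (f g : R κ p →ₗ[ZMod p] M) (h : ∀ x, f (u κ p x) = g (u κ p x)) :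
    f = g := by
  apply LinearMap.ext
  intro a
  refine MonoidAlgebra.induction_linear a (by simp) (fun a b ha hb => by rw [map_add, map_add, ha, hb]) fun x c => ?_
  have : (MonoidAlgebra.single x c : R κ p) = c • u κ p x := by
    rw [u, MonoidAlgebra.smul_single, smul_eq_mul, mul_one]
  rw [this, map_smul, map_smul, h]

/-- the group spans -/
theorem span_u : Submodule.span (ZMod p) (Set.range (u κ p)) = ⊤ := by
  rw [eq_top_iff]
  intro a _
  refine MonoidAlgebra.induction_linear a (Submodule.zero_mem _) (fun a b ha hb => Submodule.add_mem _ ha hb) fun x c => ?_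
  have : (MonoidAlgebra.single x c : R κ p) = c • u κ p x := by
    rw [u, MonoidAlgebra.smul_single, smul_eq_mul, mul_one]
  rw [this]
  exact Submodule.smul_mem _ _ (Submodule.subset_span ⟨x, rfl⟩)

/-- the augmentation -/
noncomputable def eps : R κ p →ₐ[ZMod p] ZMod p := MonoidAlgebra.lift (ZMod p) (ZMod p) (FreeGroup κ) 1

theorem eps_u (g : (FreeGroup κ)) : eps κ p (u κ p g) = 1 := by
  simp [eps, u]

/-- the generators of the augmentation ideal -/
noncomputable def X (b : κ) : R κ p := u κ p (FreeGroup.of b) - 1

/-- the monomials -/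
noncomputable def mon (w : List κ) : R κ p := (w.map (X κ p)).prod

/-- the two-sided ideal generated by a subspace -/
noncomputable def Jd (V : Submodule (ZMod p) (R κ p)) : Submodule (ZMod p) (R κ p) :=
  Submodule.span (ZMod p) {x | ∃ a b v : R κ p, v ∈ V ∧ x = a * v * b}

/-- a two-sided ideal -/
structure TwoSided (I : Submodule (ZMod p) (R κ p)) : Prop where
  l : ∀ a x : R κ p, x ∈ I → a * x ∈ I
  r : ∀ a x : R κ p, x ∈ I → x * a ∈ I

/-- the powers of `I`, with `Iw 0 = ⊤` -/
noncomputable def Iw (I : Submodule (ZMod p) (R κ p)) : ℕ → Submodule (ZMod p) (R κ p)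
  | 0 => ⊤
  | n + 1 => Iw I n * I

/-- `β` is a free basis of the left ideal `W`, with coordinates `D` (extended to linear maps on the algebra) -/
structure IsFr (W : Submodule (ZMod p) (R κ p)) {ι : Type} [Fintype ι] [DecidableEq ι] (β : ι → R κ p) (D : ι → (R κ p →ₗ[ZMod p] R κ p)) :
    Prop where
  mem : ∀ i, β i ∈ W
  fund : ∀ x ∈ W, x = ∑ i, D i x * β i
  dual : ∀ (i j : ι) (a : R κ p), D i (a * β j) = if i = j then a else 0

/-- the dimension of the truncated quotient relative to `I` -/
noncomputable def bI (I V : Submodule (ZMod p) (R κ p)) (n : ℕ) : ℕ := finrank (ZMod p) (R κ p ⧸ (Jd κ p V ⊔ Iw κ p I n))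

/-- `B w` lies in `Iw w`, and the `B w`, `1 ≤ w ≤ n`, generate `V` modulo `Iw (n+1)` -/
structure GenI (I V : Submodule (ZMod p) (R κ p)) (B : ℕ → Finset (R κ p)) : Prop where
  mem : ∀ w, ∀ v ∈ B w, v ∈ Iw κ p I w
  le : ∀ n, V ≤ (⨆ w ∈ Finset.Icc 1 n, Submodule.span (ZMod p) (B w : Set (R κ p))) ⊔ Iw κ p I (n + 1)

/-- the right-hand side of the kernel lemma: all families `(a * D i (v * τ))`, `a` arbitrary -/
noncomputable def rg {ι : Type} (D : ι → (R κ p →ₗ[ZMod p] R κ p)) (z : R κ p) : R κ p →ₗ[ZMod p] (ι → R κ p) where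
  toFun a := fun i => a * D i z
  map_add' a b := by funext i; simp [add_mul]
  map_smul' c a := by funext i; simp

/-- the kernel of the group algebra modulo a normal subgroup -/
noncomputable def IK (K : Subgroup (FreeGroup κ)) : Submodule (ZMod p) (R κ p) :=
  Submodule.span (ZMod p) {x | ∃ g k : (FreeGroup κ), k ∈ K ∧ x = u κ p g * (u κ p k - 1)}

/-- the augmentation ideal -/
noncomputable def Dl : Submodule (ZMod p) (R κ p) := LinearMap.ker (eps κ p).toLinearMap

end

/-- positive words in the free group -/
def pw {κ : Type} (l : List κ) : FreeGroup κ := (l.map FreeGroup.of).prod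

/-- towers with bases from a list, depending on the number `k` of generators -/
def tk (k : ℕ) : List ℕ → ℕ
  | [] => 1
  | p :: l => p ^ ((k - 1) * tk k l + 1)

/-- a normal subgroup `K` of finite index at least `m`, whose quotient has exponent dividing `e` -/
structure GoodU {κ : Type} (K : Subgroup (FreeGroup κ)) (e m : ℕ) : Prop where
  nor : K.Normal
  fin : K.FiniteIndex
  exp : ∀ g : FreeGroup κ, g ^ e ∈ K
  idx : m ≤ K.index

end NLK
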