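import Pool.Agent.Lib.NLK.Mul

/-!
# NLK / Frm: coordinates with respect to a free basis

PROOF IN WORDS. `fr_mul`: `a * x = ∑ i, (a * D i x) * β i` by `fund`, apply `D j` (linear) and `dual`. `fr_mem`: `Iw (n+1) = Iw n * I`, `Submodule.mul_induction_on`: `D i (y * z) = y * D i z` (`fr_mul`, `z ∈ I`), in `Iw n` because `Iw n` is two-sided (`Iw_two`).
-/

set_option autoImplicit false

namespace NLK

open Module

variable (κ : Type) (p : ℕ) [Fact p.Prime]

theorem fr_mul (W : Submodule (ZMod p) (R κ p)) {ι : Type} [Fintype ι] [DecidableEq ι] (β : ι → R κ p) (D : ι → (R κ p →ₗ[ZMod p] R κ p))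
    (h : IsFr κ p W β D) (i : ι) (a x : R κ p) (hx : x ∈ W) : D i (a * x) = a * D i x := by
  have h1 : a * x = ∑ j, (a * D j x) * β j := by
    conv_lhs => rw [h.fund x hx]
    rw [Finset.mul_sum]
    exact Finset.sum_congr rfl fun j _ => (mul_assoc _ _ _).symm
  rw [h1, map_sum]
  simp only [h.dual]
  rw [Finset.sum_ite_eq, if_pos (Finset.mem_univ i)]

theorem fr_mem (I : Submodule (ZMod p) (R κ p)) (hI : TwoSided κ p I) {ι : Type} [Fintype ι] [DecidableEq ι] (β : ι → R κ p)
    (D : ι → (R κ p →ₗ[ZMod p] R κ p)) (h : IsFr κ p I β D) (i : ι) (n : ℕ) (x : R κ p) (hx : x ∈ Iw κ p I (n + 1)) : D i x ∈ Iw κ p I n := by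
  have h1 : Iw κ p I (n + 1) = Iw κ p I n * I := rfl
  rw [h1] at hx
  refine Submodule.mul_induction_on hx (fun y hy z hz => ?_) (fun y z hy hz => ?_)
  · rw [fr_mul κ p I β D h i y z hz]
    exact (Iw_two κ p I hI n).r _ _ hy
  · rw [map_add]
    exact Submodule.add_mem _ hy hz

end NLK
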