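import Pool.Agent.Lib.NLK.Frn
import Pool.Agent.Lib.NLK.Frm

/-!
# NLK / Dih: the dimension of the relation module
-/

set_option autoImplicit false

namespace NLK

open Module

variable (κ : Type) [Fintype κ] [DecidableEq κ] (p : ℕ) [Fact p.Prime]

theorem Dl_two : TwoSided κ p (Dl κ p) := by
  constructor
  · intro a x hx
    have h : eps κ p x = 0 := hx
    show eps κ p (a * x) = 0
    rw [map_mul, h, mul_zero]
  · intro a x hx
    have h : eps κ p x = 0 := hx
    show eps κ p (x * a) = 0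
    rw [map_mul, h, zero_mul]

theorem one_not (I : Submodule (ZMod p) (R κ p)) (h : I ≤ Dl κ p) : (1 : R κ p) ∉ I := by
  intro h1
  have h2 : eps κ p 1 = 0 := h h1
  rw [map_one] at h2
  exact one_ne_zero h2

private theorem eps_sur : Function.Surjective (eps κ p).toLinearMap := by
  intro a
  refine ⟨algebraMap (ZMod p) (R κ p) a, ?_⟩
  show eps κ p (algebraMap (ZMod p) (R κ p) a) = a
  rw [AlgHom.commutes]
  rfl

theorem fin_Dl : FiniteDimensional (ZMod p) (R κ p ⧸ Dl κ p) :=
  Module.Finite.equiv (LinearMap.quotKerEquivOfSurjective _ (eps_sur κ p)).symm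

theorem finrank_Dl : finrank (ZMod p) (R κ p ⧸ Dl κ p) = 1 := by
  have h := (LinearMap.quotKerEquivOfSurjective _ (eps_sur κ p)).finrank_eq
  rw [Module.finrank_self] at h
  exact h

theorem dim_fin (hk : 1 ≤ Fintype.card κ) (I : Submodule (ZMod p) (R κ p)) (hI : TwoSided κ p I)
    (hfI : FiniteDimensional (ZMod p) (R κ p ⧸ I)) (hfR : FiniteDimensional (ZMod p) (R κ p ⧸ (I * Dl κ p))) :
    1 + Fintype.card κ * finrank (ZMod p) (R κ p ⧸ I) ≤ finrank (ZMod p) (R κ p ⧸ (I * Dl κ p)) := by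
  obtain ⟨ι, _, _, β, D, hι, hfr⟩ := exists_fr_fin κ p hk (Dl κ p) (Dl_two κ p).l (fin_Dl κ p) (one_not κ p _ le_rfl)
  rw [finrank_Dl, mul_one, Nat.sub_add_cancel hk] at hι
  let L : R κ p →ₗ[ZMod p] (ZMod p × (ι → (R κ p ⧸ I))) :=
    (eps κ p).toLinearMap.prod (LinearMap.pi fun i => (I.mkQ ∘ₗ D i) ∘ₗ
      (LinearMap.id - (Algebra.linearMap (ZMod p) (R κ p)) ∘ₗ (eps κ p).toLinearMap))
  have hLv : ∀ x, L x = (eps κ p x, fun i => I.mkQ (D i (x - algebraMap (ZMod p) (R κ p) (eps κ p x)))) := fun x => rfl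
  have hβ : ∀ i, eps κ p (β i) = 0 := fun i => hfr.mem i
  have hLs : Function.Surjective L := by
    rintro ⟨a, q⟩
    choose y hy using fun i => I.mkQ_surjective (q i)
    have e0 : eps κ p (algebraMap (ZMod p) (R κ p) a + ∑ i, y i * β i) = a := by
      rw [map_add, map_sum, AlgHom.commutes, Finset.sum_eq_zero, add_zero]
      · rfl
      · intro i _
        rw [map_mul, hβ, mul_zero]
    refine ⟨algebraMap (ZMod p) (R κ p) a + ∑ i, y i * β i, ?_⟩
    rw [hLv, e0]
    refine Prod.ext rfl (funext fun i => ?_)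
    show I.mkQ (D i (algebraMap (ZMod p) (R κ p) a + ∑ i, y i * β i - algebraMap (ZMod p) (R κ p) a)) = q i
    rw [add_sub_cancel_left, map_sum, Finset.sum_eq_single i, hfr.dual, if_pos rfl, hy]
    · intro j _ hj
      rw [hfr.dual, if_neg hj.symm]
    · intro h
      exact absurd (Finset.mem_univ i) h
  have hLk : I * Dl κ p ≤ LinearMap.ker L := by
    rw [Submodule.mul_le]
    intro y hy z hz
    have hz0 : eps κ p z = 0 := hz
    rw [LinearMap.mem_ker, hLv, map_mul, hz0, mul_zero]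
    refine Prod.ext rfl (funext fun i => ?_)
    show I.mkQ (D i (y * z - algebraMap (ZMod p) (R κ p) 0)) = 0
    rw [map_zero, sub_zero, fr_mul κ p (Dl κ p) β D hfr i y z hz, Submodule.mkQ_apply, Submodule.Quotient.mk_eq_zero]
    exact hI.r _ _ hy
  have hs : Function.Surjective ((I * Dl κ p).liftQ L hLk) := by
    intro x
    obtain ⟨y, rfl⟩ := hLs x
    exact ⟨Submodule.Quotient.mk y, rfl⟩
  have h1 := LinearMap.finrank_le_finrank_of_surjective hs
  rw [Module.finrank_prod, Module.finrank_self, Module.finrank_pi_fintype, Finset.sum_const, Finset.card_univ, smul_eq_mul, hι] at h1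
  exact h1

end NLK
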