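import Pool.Agent.Lib.NLK.Defs

/-!
# NLK / Dmp: a twisted derivation

PROOF IN WORDS. Model: `NLB/Fox.lean`, `fox_der`. Let `E = (ι → R) × R`. For `b` let `P b : E ≃ₗ[ZMod p] E`, `(n, x) ↦ (fun i => u (of b) * n i + τ b [x] i, u (of b) * x)`, inverse `(n, x) ↦ (fun i => u (of b)⁻¹ * (n i - τ b [u (of b)⁻¹ * x] i), u (of b)⁻¹ * x)`. `φ = FreeGroup.lift P : (FreeGroup κ) →* (E ≃ₗ[ZMod p] E)`.
`d = ext κ p (fun g => (φ g (0, 1)).1)`. By induction on `g`: `(φ g (n, x)).2 = u g * x` and `(φ g (n, x)).1 = u g * n + (φ g (0, x)).1` (pointwise), and for `x ∈ I`: `φ g (0, x) = (0, u g * x)` (as `τ b 0 = 0`, `I` is a left ideal).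
Then `d (u g * y) = u g * d y + (φ g (0, y)).1` for all `y` (linear in `y`; for `y = u h`: `φ (g h) (0,1) = φ g (d (u h), u h)`). For `g = of b`: `(φ (of b) (0, y)).1 = τ b [y]`, and `X b * y = u (of b) * y - y` gives the second claim; for `y = x ∈ I` the last term is `0`, and `a` is a combination of the `u g` (`span_u`, induction): the third claim. `d 1 = 0`: `u_one`, `φ 1 = 1`.
-/

set_option autoImplicit false

namespace NLK

open Module

variable (κ : Type) (p : ℕ) [Fact p.Prime]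

private theorem cocycle (I : Submodule (ZMod p) (R κ p)) (hI : ∀ a x : R κ p, x ∈ I → a * x ∈ I) {ι : Type}
    (τ : κ → ((R κ p ⧸ I) →ₗ[ZMod p] (ι → R κ p))) :
    ∃ δ : (FreeGroup κ) → (R κ p →ₗ[ZMod p] (ι → R κ p)),
      (∀ g h x i, δ (g * h) x i = u κ p g * δ h x i + δ g (u κ p h * x) i) ∧
      (∀ b x i, δ (FreeGroup.of b) x i = τ b (Submodule.Quotient.mk x) i) ∧
      (∀ g, ∀ x ∈ I, δ g x = 0) := by
  have hu1 : ∀ (b : κ) (x : R κ p), u κ p (FreeGroup.of b)⁻¹ * (u κ p (FreeGroup.of b) * x) = x := fun b x => by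
    rw [← mul_assoc, u_inv_mul, one_mul]
  have hu2 : ∀ (b : κ) (x : R κ p), u κ p (FreeGroup.of b) * (u κ p (FreeGroup.of b)⁻¹ * x) = x := fun b x => by
    rw [← mul_assoc, u_mul_inv, one_mul]
  let P : κ → Equiv.Perm ((ι → R κ p) × R κ p) := fun b =>
    { toFun := fun e => (fun i => u κ p (FreeGroup.of b) * e.1 i + τ b (Submodule.Quotient.mk e.2) i,
        u κ p (FreeGroup.of b) * e.2)
      invFun := fun e => (fun i => u κ p (FreeGroup.of b)⁻¹ *
          (e.1 i - τ b (Submodule.Quotient.mk (u κ p (FreeGroup.of b)⁻¹ * e.2)) i),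
        u κ p (FreeGroup.of b)⁻¹ * e.2)
      left_inv := fun e => by
        refine Prod.ext (funext fun i => ?_) ?_
        · show u κ p (FreeGroup.of b)⁻¹ * (u κ p (FreeGroup.of b) * e.1 i + τ b (Submodule.Quotient.mk e.2) i
            - τ b (Submodule.Quotient.mk (u κ p (FreeGroup.of b)⁻¹ * (u κ p (FreeGroup.of b) * e.2))) i) = e.1 i
          rw [hu1 b e.2, add_sub_cancel_right, hu1]
        · exact hu1 b e.2
      right_inv := fun e => by
        refine Prod.ext (funext fun i => ?_) ?_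
        · show u κ p (FreeGroup.of b) * (u κ p (FreeGroup.of b)⁻¹ *
            (e.1 i - τ b (Submodule.Quotient.mk (u κ p (FreeGroup.of b)⁻¹ * e.2)) i))
            + τ b (Submodule.Quotient.mk (u κ p (FreeGroup.of b)⁻¹ * e.2)) i = e.1 i
          rw [hu2, sub_add_cancel]
        · exact hu2 b e.2 }
  let φ : (FreeGroup κ) →* Equiv.Perm ((ι → R κ p) × R κ p) := FreeGroup.lift P
  have hP : ∀ b, φ (FreeGroup.of b) = P b := fun b => by
    show FreeGroup.lift P (FreeGroup.of b) = _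
    rw [FreeGroup.lift_apply_of]
  have key : ∀ g, ∃ δ : R κ p →ₗ[ZMod p] (ι → R κ p),
      (∀ (n : ι → R κ p) (x : R κ p), φ g (n, x) = (fun i => u κ p g * n i + δ x i, u κ p g * x)) ∧
      ∀ x ∈ I, δ x = 0 := by
    intro g
    induction g using FreeGroup.induction_on with
    | C1 =>
      refine ⟨0, fun n x => ?_, fun x _ => rfl⟩
      rw [map_one]
      refine Prod.ext (funext fun i => ?_) ?_
      · show n i = u κ p 1 * n i + 0
        rw [u_one, one_mul, add_zero]
      · show x = u κ p 1 * x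
        rw [u_one, one_mul]
    | of b =>
      refine ⟨τ b ∘ₗ I.mkQ, fun n x => ?_, fun x hx => ?_⟩
      · show φ (FreeGroup.of b) (n, x) = _
        rw [hP]
        rfl
      · show τ b (I.mkQ x) = 0
        rw [(Submodule.Quotient.mk_eq_zero I).2 hx |> fun h => (h : I.mkQ x = 0), map_zero]
    | inv_of b ih =>
      refine ⟨-(LinearMap.pi fun i => LinearMap.mulLeft (ZMod p) (u κ p (FreeGroup.of b)⁻¹) ∘ₗ
        LinearMap.proj i ∘ₗ τ b ∘ₗ I.mkQ ∘ₗ LinearMap.mulLeft (ZMod p) (u κ p (FreeGroup.of b)⁻¹)),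
        fun n x => ?_, fun x hx => ?_⟩
      · show φ (FreeGroup.of b)⁻¹ (n, x) = _
        rw [map_inv, hP]
        refine Prod.ext (funext fun i => ?_) rfl
        show u κ p (FreeGroup.of b)⁻¹ * (n i - τ b (Submodule.Quotient.mk (u κ p (FreeGroup.of b)⁻¹ * x)) i)
          = u κ p (FreeGroup.of b)⁻¹ * n i +
            -(u κ p (FreeGroup.of b)⁻¹ * τ b (Submodule.Quotient.mk (u κ p (FreeGroup.of b)⁻¹ * x)) i)
        rw [mul_sub, sub_eq_add_neg]
      · funext i
        show -(u κ p (FreeGroup.of b)⁻¹ * τ b (I.mkQ (u κ p (FreeGroup.of b)⁻¹ * x)) i) = 0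
        have h : I.mkQ (u κ p (FreeGroup.of b)⁻¹ * x) = 0 := (Submodule.Quotient.mk_eq_zero I).2 (hI _ x hx)
        rw [h, map_zero, Pi.zero_apply, mul_zero, neg_zero]
    | mul g h hg hh =>
      obtain ⟨δg, hg1, hg2⟩ := hg
      obtain ⟨δh, hh1, hh2⟩ := hh
      refine ⟨(LinearMap.pi fun i => LinearMap.mulLeft (ZMod p) (u κ p g) ∘ₗ LinearMap.proj i ∘ₗ δh) +
        δg ∘ₗ LinearMap.mulLeft (ZMod p) (u κ p h), fun n x => ?_, fun x hx => ?_⟩
      · rw [map_mul]
        show φ g (φ h (n, x)) = _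
        rw [hh1, hg1]
        refine Prod.ext (funext fun i => ?_) ?_
        · show u κ p g * (u κ p h * n i + δh x i) + δg (u κ p h * x) i
            = u κ p (g * h) * n i + (u κ p g * δh x i + δg (u κ p h * x) i)
          rw [u_mul, mul_add, mul_assoc, add_assoc]
        · show u κ p g * (u κ p h * x) = u κ p (g * h) * x
          rw [u_mul, mul_assoc]
      · funext i
        show u κ p g * δh x i + δg (u κ p h * x) i = 0
        rw [hh2 x hx, hg2 _ (hI _ x hx), Pi.zero_apply, mul_zero, zero_add]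
  choose δ hδ hδI using key
  refine ⟨δ, fun g h x i => ?_, fun b x i => ?_, hδI⟩
  · have h1 : φ (g * h) (0, x) = φ g (φ h (0, x)) := by rw [map_mul]; rfl
    rw [hδ, hδ h, hδ g] at h1
    have h2 := congrFun (congrArg Prod.fst h1) i
    have h3 : u κ p (g * h) * (0 : R κ p) + δ (g * h) x i = u κ p g * (u κ p h * (0 : R κ p) + δ h x i) + δ g (u κ p h * x) i := h2
    rw [mul_zero, mul_zero, zero_add, zero_add] at h3
    exact h3
  · have h1 := hδ (FreeGroup.of b) 0 x
    rw [hP] at h1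
    have h2 := congrFun (congrArg Prod.fst h1) i
    have h3 : u κ p (FreeGroup.of b) * (0 : R κ p) + τ b (Submodule.Quotient.mk x) i
      = u κ p (FreeGroup.of b) * (0 : R κ p) + δ (FreeGroup.of b) x i := h2
    exact (add_left_cancel h3).symm

theorem exists_d (I : Submodule (ZMod p) (R κ p)) (hI : ∀ a x : R κ p, x ∈ I → a * x ∈ I) {ι : Type}
    (τ : κ → ((R κ p ⧸ I) →ₗ[ZMod p] (ι → R κ p))) :
    ∃ d : R κ p →ₗ[ZMod p] (ι → R κ p), d 1 = 0 ∧
      (∀ b x i, d (X κ p b * x) i = X κ p b * d x i + τ b (Submodule.Quotient.mk x) i) ∧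
      ∀ x ∈ I, ∀ a i, d (a * x) i = a * d x i := by
  obtain ⟨δ, hc, ht, hz⟩ := cocycle κ p I hI τ
  have hd : ∀ g y i, ext κ p (fun g => δ g 1) (u κ p g * y) i = u κ p g * ext κ p (fun g => δ g 1) y i + δ g y i := by
    intro g y i
    have h := ext_unique κ p
      (LinearMap.proj i ∘ₗ ext κ p (fun g => δ g 1) ∘ₗ LinearMap.mulLeft (ZMod p) (u κ p g))
      (LinearMap.mulLeft (ZMod p) (u κ p g) ∘ₗ LinearMap.proj i ∘ₗ ext κ p (fun g => δ g 1) + LinearMap.proj i ∘ₗ δ g)
      (fun h => by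
        show ext κ p (fun g => δ g 1) (u κ p g * u κ p h) i = u κ p g * ext κ p (fun g => δ g 1) (u κ p h) i + δ g (u κ p h) i
        rw [← u_mul, ext_u, ext_u, hc, mul_one])
    exact LinearMap.congr_fun h y
  refine ⟨ext κ p fun g => δ g 1, ?_, fun b x i => ?_, fun x hx a i => ?_⟩
  · funext i
    have h1 : ext κ p (fun g => δ g 1) (1 : R κ p) = δ 1 1 := by
      rw [← u_one, ext_u]
    rw [h1]
    have h2 := hc 1 1 1 i
    rw [mul_one, u_one, one_mul, one_mul] at h2
    exact left_eq_add.1 h2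
  · have h1 : X κ p b * x = u κ p (FreeGroup.of b) * x - x := by
      rw [X, sub_mul, one_mul]
    rw [h1, map_sub, Pi.sub_apply, hd, ht, X, sub_mul, one_mul]
    abel
  · have h := ext_unique κ p
      (LinearMap.proj i ∘ₗ ext κ p (fun g => δ g 1) ∘ₗ LinearMap.mulRight (ZMod p) x)
      (LinearMap.mulRight (ZMod p) (ext κ p (fun g => δ g 1) x i))
      (fun g => by
        show ext κ p (fun g => δ g 1) (u κ p g * x) i = u κ p g * ext κ p (fun g => δ g 1) x i
        rw [hd, hz g x hx, Pi.zero_apply, add_zero])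
    exact LinearMap.congr_fun h a

end NLK
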