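import Pool.Agent.Lib.NLK.Gsk

/-!
# NLK / Gsj: relative Golod and Shafarevich, the inequality

PROOF IN WORDS. Model: `NLB/Gcu.lean`, `gs_ineq_cu`. Let `L n = Jd V ⊔ Iw n`, of finite codimension (`A (c*n) ≤ Iw n` by `A_le_Iw`, `fin_A p (c*n)`, `Submodule.factor`). `φ i : R ⧸ L n → R ⧸ L (n+1)`, right multiplication by `β i` (`Submodule.mapQ`; `Jd V` is a right ideal, `Iw n * I = Iw (n+1)`), `Φ = ∑ i, φ i ∘ proj i` on `ι → R ⧸ L n` (`LinearMap.lsum` or a sum).
Range of `Φ`: inside the kernel of the surjection `R ⧸ L (n+1) → R ⧸ I` (`L (n+1) ≤ I` because `V ≤ I`, `Iw (n+1) ≤ Iw 1 = I`), so `finrank (range Φ) + finrank (R ⧸ I) ≤ bI (n+1)`. Kernel of `Φ`: if `∑ x i * β i ∈ L (n+1)` then by `gs_ker_rel` and `dual` the family `x` is in `P` of Gsk;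
modulo `L n` the first part vanishes and `range (rg D (v * τ))` is the image of `R ⧸ L (n+1-w)` (`D i (v * τ) ∈ Iw (w-1)` by `fr_mem`, `Iw_mul`, `n ≤ (n+1-w) + (w-1)`), so has dimension at most `bI (n+1-w)`. Sum over `w`, `v ∈ B w`, `τ ∈ T` (`fin_iSup` in Gcu). Then `finrank (range Φ) + finrank (ker Φ) = card ι * bI n` (`Module.finrank_pi_fintype` or `finrank_fintype_fun`...).
-/

set_option autoImplicit false

namespace NLK

open Module

variable (κ : Type) (p : ℕ) [Fact p.Prime]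

private theorem J_right (V : Submodule (ZMod p) (R κ p)) (b : R κ p) {x : R κ p} (hx : x ∈ Jd κ p V) : x * b ∈ Jd κ p V := by
  induction hx using Submodule.span_induction with
  | mem x hx =>
    obtain ⟨a, b', v, hv, rfl⟩ := hx
    exact Submodule.subset_span ⟨a, b' * b, v, hv, by simp only [mul_assoc]⟩
  | zero => rw [zero_mul]; exact Submodule.zero_mem _
  | add x y _ _ hx hy => rw [add_mul]; exact Submodule.add_mem _ hx hy
  | smul c x _ hx => rw [smul_mul_assoc]; exact Submodule.smul_mem _ _ hx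

private theorem map_le (I V : Submodule (ZMod p) (R κ p)) (hI : TwoSided κ p I) {i j k : ℕ} (h : k ≤ i + j) {a : R κ p}
    (ha : a ∈ Iw κ p I j) : Jd κ p V ⊔ Iw κ p I i ≤ (Jd κ p V ⊔ Iw κ p I k).comap (LinearMap.mulRight (ZMod p) a) := by
  refine sup_le (fun x hx => ?_) fun x hx => ?_
  · exact Submodule.mem_sup_left (J_right κ p V a hx)
  · exact Submodule.mem_sup_right (Iw_anti κ p I hI h (Iw_mul κ p I hI hx ha))

private theorem fin_iSup {K M ι : Type} [Field K] [AddCommGroup M] [Module K M] [FiniteDimensional K M] (s : Finset ι)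
    (f : ι → Submodule K M) : finrank K (⨆ i ∈ s, f i : Submodule K M) ≤ ∑ i ∈ s, finrank K (f i) := by
  classical
  induction s using Finset.induction_on with
  | empty => simp
  | insert i s hi ih =>
    rw [Finset.iSup_insert, Finset.sum_insert hi]
    exact (Submodule.finrank_add_le_finrank_add_finrank _ _).trans (Nat.add_le_add_left ih _)

theorem gs_ineq_fin (I V : Submodule (ZMod p) (R κ p)) (hI : TwoSided κ p I) (hfin : ∀ n, FiniteDimensional (ZMod p) (R κ p ⧸ Iw κ p I n)) (hV : V ≤ I) {ι : Type} [Fintype ι]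
    [DecidableEq ι] (β : ι → R κ p) (D : ι → (R κ p →ₗ[ZMod p] R κ p)) (h : IsFr κ p I β D) (T : Finset (R κ p))
    (hT : ∀ x, x ∈ Submodule.span (ZMod p) (T : Set (R κ p)) ⊔ I) (B : ℕ → Finset (R κ p)) (hB : GenI κ p I V B) (n : ℕ) :
    finrank (ZMod p) (R κ p ⧸ I) + Fintype.card ι * bI κ p I V n ≤
      bI κ p I V (n + 1) + ∑ w ∈ Finset.Icc 1 n, T.card * (B w).card * bI κ p I V (n + 1 - w) := by
  classical
  have hfd : ∀ i, FiniteDimensional (ZMod p) (R κ p ⧸ (Jd κ p V ⊔ Iw κ p I i)) := by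
    intro i
    have := hfin i
    exact Module.Finite.of_surjective
      (Submodule.factor (le_sup_right : Iw κ p I i ≤ Jd κ p V ⊔ Iw κ p I i)) (Submodule.factor_surjective _)
  have hI1 : Jd κ p V ⊔ Iw κ p I (n + 1) ≤ I := by
    refine sup_le (Submodule.span_le.2 ?_) ?_
    · rintro x ⟨a, b, v, hv, rfl⟩
      exact hI.r _ _ (hI.l _ _ (hV hv))
    · exact (Iw_anti κ p I hI (by omega : 1 ≤ n + 1)).trans (Iw_one κ p I hI).le
  have hβ : ∀ i, β i ∈ Iw κ p I 1 := fun i => by
    rw [Iw_one κ p I hI]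
    exact h.mem i
  let φ : ι → (R κ p ⧸ (Jd κ p V ⊔ Iw κ p I n)) →ₗ[ZMod p] (R κ p ⧸ (Jd κ p V ⊔ Iw κ p I (n + 1))) := fun i =>
    Submodule.mapQ _ _ (LinearMap.mulRight (ZMod p) (β i)) (map_le κ p I V hI le_rfl (hβ i))
  let Φ : (ι → (R κ p ⧸ (Jd κ p V ⊔ Iw κ p I n))) →ₗ[ZMod p] (R κ p ⧸ (Jd κ p V ⊔ Iw κ p I (n + 1))) :=
    ∑ i, (φ i).comp (LinearMap.proj i)
  have hΦ : ∀ f, Φ f = ∑ i, φ i (f i) := fun f => by
    rw [LinearMap.sum_apply]
    rfl
  let ε : (R κ p ⧸ (Jd κ p V ⊔ Iw κ p I (n + 1))) →ₗ[ZMod p] (R κ p ⧸ I) := Submodule.factor hI1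
  have hrange : finrank (ZMod p) (R κ p ⧸ I) + finrank (ZMod p) (LinearMap.range Φ) ≤ bI κ p I V (n + 1) := by
    have h1 : LinearMap.range Φ ≤ LinearMap.ker ε := by
      rintro _ ⟨f, rfl⟩
      rw [LinearMap.mem_ker, hΦ, map_sum]
      refine Finset.sum_eq_zero fun i _ => ?_
      obtain ⟨x, hx⟩ := Submodule.mkQ_surjective _ (f i)
      rw [← hx]
      show (Submodule.Quotient.mk (x * β i) : R κ p ⧸ I) = 0
      exact (Submodule.Quotient.mk_eq_zero _).2 (hI.l _ _ (h.mem i))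
    have h2 : LinearMap.range ε = ⊤ := LinearMap.range_eq_top.2 (Submodule.factor_surjective _)
    have h3 := Submodule.finrank_mono h1
    have h4 := LinearMap.finrank_range_add_finrank_ker ε
    rw [h2, finrank_top] at h4
    unfold bI
    omega
  have hker : finrank (ZMod p) (LinearMap.ker Φ) ≤
      ∑ w ∈ Finset.Icc 1 n, T.card * (B w).card * bI κ p I V (n + 1 - w) := by
    let π : (ι → R κ p) →ₗ[ZMod p] (ι → (R κ p ⧸ (Jd κ p V ⊔ Iw κ p I n))) :=
      LinearMap.pi fun i => (Submodule.mkQ (Jd κ p V ⊔ Iw κ p I n)).comp (LinearMap.proj i)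
    have hπ : ∀ f i, π f i = Submodule.Quotient.mk (f i) := fun f i => rfl
    have h1 : LinearMap.ker Φ ≤ ⨆ w ∈ Finset.Icc 1 n, ⨆ v ∈ B w, ⨆ τ ∈ T,
        (LinearMap.range (rg κ p D (v * τ))).map π := by
      intro f hf
      choose x hx using fun i => Submodule.mkQ_surjective _ (f i)
      have h2 : ∑ i, x i * β i ∈ Jd κ p V ⊔ Iw κ p I (n + 1) := by
        rw [← Submodule.Quotient.mk_eq_zero, ← Submodule.mkQ_apply, map_sum]
        rw [LinearMap.mem_ker, hΦ] at hf
        rw [← hf]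
        refine Finset.sum_congr rfl fun i _ => ?_
        rw [← hx i]
        rfl
      have h3 := gs_ker_rel κ p I V hI hV β D h T hT B hB n _ h2
      have h4 : (fun j => D j (∑ i, x i * β i)) = x := by
        funext j
        rw [map_sum, Finset.sum_congr rfl (fun i _ => h.dual j i (x i)), Finset.sum_ite_eq Finset.univ j,
          if_pos (Finset.mem_univ j)]
      rw [h4] at h3
      have h5 := Submodule.mem_map_of_mem (f := π) h3
      rw [Submodule.map_sup] at h5
      have h6 : (Submodule.pi Set.univ (fun _ : ι => Jd κ p V ⊔ Iw κ p I n)).map π = ⊥ := by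
        rw [eq_bot_iff]
        rintro _ ⟨g, hg, rfl⟩
        rw [Submodule.mem_bot]
        funext i
        exact (Submodule.Quotient.mk_eq_zero _).2 (hg i (Set.mem_univ i))
      rw [h6, bot_sup_eq] at h5
      have h7 : π x = f := by
        funext i
        exact hx i
      rw [h7] at h5
      simpa only [Submodule.map_iSup] using h5
    have h2 : ∀ w ∈ Finset.Icc 1 n, ∀ v ∈ B w, ∀ τ ∈ T,
        finrank (ZMod p) ((LinearMap.range (rg κ p D (v * τ))).map π) ≤ bI κ p I V (n + 1 - w) := by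
      intro w hw v hv τ _
      rw [Finset.mem_Icc] at hw
      have hDv : ∀ i, D i (v * τ) ∈ Iw κ p I (w - 1) := fun i => fr_mem κ p I hI β D h i (w - 1) (v * τ) (by
        rw [Nat.sub_add_cancel hw.1]
        exact (Iw_two κ p I hI w).r _ _ (hB.mem w v hv))
      have hle : n ≤ (n + 1 - w) + (w - 1) := by omega
      let ψ : (R κ p ⧸ (Jd κ p V ⊔ Iw κ p I (n + 1 - w))) →ₗ[ZMod p] (ι → (R κ p ⧸ (Jd κ p V ⊔ Iw κ p I n))) :=
        LinearMap.pi fun i => Submodule.mapQ _ _ (LinearMap.mulRight (ZMod p) (D i (v * τ))) (map_le κ p I V hI hle (hDv i))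
      have h3 : (LinearMap.range (rg κ p D (v * τ))).map π ≤ LinearMap.range ψ := by
        rintro _ ⟨_, ⟨s, rfl⟩, rfl⟩
        exact ⟨Submodule.Quotient.mk s, rfl⟩
      exact (Submodule.finrank_mono h3).trans (LinearMap.finrank_range_le ψ)
    refine (Submodule.finrank_mono h1).trans ((fin_iSup _ _).trans (Finset.sum_le_sum fun w hw => ?_))
    refine (fin_iSup _ _).trans ((Finset.sum_le_sum fun v hv => (fin_iSup _ _).trans
      (Finset.sum_le_sum fun τ hτ => h2 w hw v hv τ hτ)).trans ?_)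
    rw [Finset.sum_const, Finset.sum_const, smul_eq_mul, smul_eq_mul, ← mul_assoc, mul_comm (B w).card T.card]
  have hrn := LinearMap.finrank_range_add_finrank_ker Φ
  rw [Module.finrank_pi_fintype, Finset.sum_const, Finset.card_univ, smul_eq_mul] at hrn
  unfold bI at hrange hker ⊢
  omega

end NLK
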