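import Pool.Agent.Lib.NLK.Idy
import Pool.Agent.Lib.NLK.Fmu
import Pool.Agent.Lib.NLK.Gsj
import Pool.Agent.Lib.NLK.Rem
import Pool.Agent.Lib.NLK.Tis
import Pool.Agent.Lib.NLK.Pdk
import Pool.Agent.Lib.NLK.Tra
import Pool.Agent.Lib.NLK.Numk
import Pool.Agent.Lib.NLV.Fns
import Pool.Agent.Lib.NLT.Gro

/-!
# NLK / Fin: assembly, free groups of any finite rank
-/

set_option autoImplicit false

namespace NLK

open Module
open scoped commutatorElement

section

variable (κ : Type) [Fintype κ] [DecidableEq κ] (p : ℕ) [Fact p.Prime]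

private theorem prod_two (I J : Submodule (ZMod p) (R κ p)) (hI : TwoSided κ p I) (hJ : TwoSided κ p J) : TwoSided κ p (I * J) := by
  constructor
  · intro a x hx
    refine Submodule.mul_induction_on (C := fun x => a * x ∈ I * J) hx (fun m hm i hi => ?_) fun x y hx hy => ?_
    · rw [← mul_assoc]
      exact Submodule.mul_mem_mul (hI.l a m hm) hi
    · rw [mul_add]
      exact Submodule.add_mem _ hx hy
  · intro a x hx
    refine Submodule.mul_induction_on (C := fun x => x * a ∈ I * J) hx (fun m hm i hi => ?_) fun x y hx hy => ?_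
    · rw [mul_assoc]
      exact Submodule.mul_mem_mul hm (hJ.r a i hi)
    · rw [add_mul]
      exact Submodule.add_mem _ hx hy

theorem fin_IKDl (hk : 1 ≤ Fintype.card κ) (K : Subgroup (FreeGroup κ)) (hf : K.FiniteIndex) :
    FiniteDimensional (ZMod p) (R κ p ⧸ (IK κ p K * Dl κ p)) := by
  obtain ⟨ι, _, _, β, D, -, hfr⟩ := exists_fr_fin κ p hk (Dl κ p) (Dl_two κ p).l (fin_Dl κ p) (one_not κ p _ le_rfl)
  exact fin_mul κ p (IK κ p K) (Dl κ p) (IK_fin κ p K hf) (fin_Dl κ p) β D hfr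

theorem good_succ (hk : 1 ≤ Fintype.card κ) (K : Subgroup (FreeGroup κ)) (e m d : ℕ) (h : GoodU K e m)
    (hd : derivedSeries (FreeGroup κ) d ≤ K) :
    ∃ K' : Subgroup (FreeGroup κ), GoodU K' (e * p) (p ^ ((Fintype.card κ - 1) * m + 1)) ∧ derivedSeries (FreeGroup κ) (d + 1) ≤ K' := by
  obtain ⟨hn, hf, he, hi⟩ := h
  have hfin := fin_IKDl κ p hk K hf
  have hQ := prod_two κ p _ _ (IK_two κ p K hn) (Dl_two κ p)
  obtain ⟨K', hK', hn', hf', -⟩ := exists_KSf κ p _ hQ hfin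
  refine ⟨K', ⟨hn', hf', fun g => ?_, ?_⟩, ?_⟩
  · have : CharP (R κ p) p := charP_of_injective_algebraMap (algebraMap (ZMod p) (R κ p)).injective p
    have e0 : u κ p g ^ (e * p) - 1 = (u κ p g ^ e - 1) ^ p := by
      have h3 := sub_pow_char_pow_of_commute p 1 (Commute.one_right (u κ p g ^ e))
      rw [pow_one, one_pow] at h3
      rw [h3, pow_mul]
    rw [hK', u_pow, e0]
    have h1 : u κ p g ^ e - 1 ∈ IK κ p K := by
      rw [← u_pow]
      exact IK_mem κ p K _ (he g)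
    obtain ⟨r, hr⟩ : ∃ r, p = r + 2 := ⟨p - 2, by have := (Fact.out : p.Prime).two_le; omega⟩
    have h2 : (u κ p g ^ e - 1) ^ p = (u κ p g ^ e - 1) * ((u κ p g ^ e - 1) ^ (r + 1)) := by
      rw [← pow_succ', ← hr]
    rw [h2, pow_succ]
    exact Submodule.mul_mem_mul h1 ((Dl_two κ p).l _ _ (IK_le κ p K h1))
  · exact idx_fin κ p hk K hn hf hfin m (hi.trans (IK_idx κ p K hf)) K' hK' hf'
  · rw [derivedSeries_succ]
    refine Subgroup.commutator_le.2 fun a ha b hb => ?_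
    rw [hK']
    have h1 := IK_mem κ p K a (hd ha)
    have h2 := IK_mem κ p K b (hd hb)
    exact comm_mem κ p _ hQ a b (Submodule.mul_mem_mul h1 (IK_le κ p K h2)) (Submodule.mul_mem_mul h2 (IK_le κ p K h1))

end

section

variable (κ : Type) [Fintype κ] [DecidableEq κ]

theorem exists_good (hk : 1 ≤ Fintype.card κ) (l : List ℕ) (hl : ∀ r ∈ l, r.Prime) :
    ∃ K : Subgroup (FreeGroup κ), GoodU K l.prod (tk (Fintype.card κ) l) ∧ ∃ d, derivedSeries (FreeGroup κ) d ≤ K := by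
  induction l with
  | nil =>
    refine ⟨⊤, ⟨inferInstance, inferInstance, fun g => Subgroup.mem_top _, ?_⟩, 0, le_top⟩
    rw [Subgroup.index_top]
    exact le_rfl
  | cons p l ih =>
    obtain ⟨K, hK, d, hd⟩ := ih fun r hr => hl r (List.mem_cons_of_mem _ hr)
    have : Fact p.Prime := ⟨hl p List.mem_cons_self⟩
    obtain ⟨K', hK', hd'⟩ := good_succ κ p hk K _ _ d hK hd
    refine ⟨K', ?_, d + 1, hd'⟩
    rw [List.prod_cons, mul_comm]
    exact hK'

/-- the infinite torsion group -/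
theorem tower_inf (hk : 2 ≤ Fintype.card κ) (p : ℕ) [Fact p.Prime] (l : List ℕ) (hl : ∀ r ∈ l, r.Prime) (N : ℕ)
    (hN : 8 * Fintype.card κ ^ (N + 1) ≤ tk (Fintype.card κ) l) :
    ∃ (G : Type) (_ : Group G) (S : Finset G), Infinite G ∧ NLU.PiGroup (p :: l) G ∧ S.card ≤ Fintype.card κ ∧
      Subgroup.closure (S : Set G) = ⊤ ∧ NLB.Cond N (l.prod * p) S ∧
      ∀ x : G, x ≠ 1 → ∃ (Q : Type) (_ : Group Q) (f : G →* Q), Finite Q ∧ Group.IsSolvable Q ∧ f x ≠ 1 := by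
  have hk1 : 1 ≤ Fintype.card κ := by omega
  obtain ⟨K, ⟨hn, hf, he, hi⟩, d, hd⟩ := exists_good κ hk1 l hl
  have hI := IK_two κ p K hn
  have hfin : FiniteDimensional (ZMod p) (R κ p ⧸ IK κ p K) := IK_fin κ p K hf
  have hm : 8 * Fintype.card κ ^ (N + 1) ≤ finrank (ZMod p) (R κ p ⧸ IK κ p K) := hN.trans (hi.trans (IK_idx κ p K hf))
  obtain ⟨ι, _, _, β, D, hι, hfr⟩ := exists_fr_fin κ p hk1 (IK κ p K) hI.l hfin (one_not κ p _ (IK_le κ p K))
  have hfw := fin_Iw κ p (IK κ p K) hfin β D hfr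
  obtain ⟨T, hT, hTs⟩ := exists_T κ p (IK κ p K)
  have hc1 : 1 ≤ Fintype.card κ ^ (N + 1) := Nat.one_le_pow _ _ hk1
  have hr : finrank (ZMod p) (R κ p ⧸ IK κ p K) + 1 ≤ (Fintype.card κ - 1) * finrank (ZMod p) (R κ p ⧸ IK κ p K) + 1 :=
    Nat.succ_le_succ (Nat.le_mul_of_pos_left _ (by omega))
  obtain ⟨t, s0, ht, ht1, hs0, hsum⟩ := numk (finrank (ZMod p) (R κ p ⧸ IK κ p K))
    ((Fintype.card κ - 1) * finrank (ZMod p) (R κ p ⧸ IK κ p K) + 1) (Fintype.card κ ^ (N + 1)) hc1 hm hr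
  obtain ⟨V, B, hV, hB, hw, htor, hcard⟩ := exists_relf κ p hk (IK κ p K) hI l.prod N s0 hs0 (fun g => by
    rw [← u_pow]
    exact IK_mem κ p K _ (he g))
  have hpos : 0 < l.prod := List.prod_pos (fun r hr => (hl r hr).pos)
  refine torsion_sol κ p (l.prod * p) N l.prod hpos (p :: l) List.mem_cons_self (fun r hr hrd => ?_) (IK κ p K) V hI (fun n => ?_) hw htor
    (fun C => ?_) ⟨d, fun g hg => IK_mem κ p K g (hd hg)⟩
  · obtain ⟨a, ha, hra⟩ := (Nat.Prime.prime hr).dvd_prod_iff.1 hrd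
    rw [(Nat.prime_dvd_prime_iff_eq hr (hl a ha)).1 hra]
    exact List.mem_cons_of_mem _ ha
  · have := hfw n
    exact Module.Finite.of_surjective
      (Submodule.factor (le_sup_right : Iw κ p (IK κ p K) n ≤ Jd κ p V ⊔ Iw κ p (IK κ p K) n)) (Submodule.factor_surjective _)
  · have hineq := gs_ineq_fin κ p (IK κ p K) V hI hfw hV β D hfr T hTs B hB
    rw [hι] at hineq
    have hm1 : 1 ≤ finrank (ZMod p) (R κ p ⧸ IK κ p K) := by omega
    have h1 : 1 ≤ bI κ p (IK κ p K) V 1 := by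
      have h2 := hineq 0
      simp only [Finset.Icc_eq_empty_of_lt (show (0 : ℕ) < 1 by norm_num), Finset.sum_empty, add_zero, zero_add] at h2
      exact le_trans hm1 (le_trans (Nat.le_add_right _ _) h2)
    have hgrow := NLT.growth_rel ((Fintype.card κ - 1) * finrank (ZMod p) (R κ p ⧸ IK κ p K) + 1) (bI κ p (IK κ p K) V)
      (fun w => T.card * (B w).card) t ht ht1.le h1
      (fun n => le_trans (by omega) (hineq n)) (fun M => by
        refine le_trans (Finset.sum_le_sum fun w _ => ?_) (hsum M)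
        refine mul_le_mul_of_nonneg_right ?_ (by positivity)
        rw [hT]
        exact_mod_cast Nat.mul_le_mul_left _ (hcard w))
    have hτ : 1 < 1 / t := by
      rw [lt_div_iff₀ ht, one_mul]
      exact ht1
    obtain ⟨n, hn'⟩ := pow_unbounded_of_one_lt (C : ℝ) hτ
    refine ⟨n + 1, ?_⟩
    exact_mod_cast hn'.trans_le (hgrow n)

end

/-- the tower lower bound -/
theorem tower_k (l : List ℕ) (hl : ∀ r ∈ l, r.Prime) (k n N : ℕ) (hk : 2 ≤ k) (hn : l.prod ∣ n)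
    (hN : 8 * k ^ (N + 1) ≤ tk k l.tail) :
    (∀ C : ℕ, ∃ (G : Type) (_ : Group G) (S : Finset G), Finite G ∧ Group.IsSolvable G ∧ NLU.PiGroup l G ∧ S.card = k ∧
      Subgroup.closure (S : Set G) = ⊤ ∧ NLB.Cond N n S ∧ C < Nat.card G) ∧
    ∃ (G : Type) (_ : Group G) (S : Finset G), Infinite G ∧ NLU.PiGroup l G ∧ S.card = k ∧ Subgroup.closure (S : Set G) = ⊤ ∧
      NLB.Cond N n S ∧ ∀ x : G, x ≠ 1 → ∃ (Q : Type) (_ : Group Q) (f : G →* Q), Finite Q ∧ Group.IsSolvable Q ∧ f x ≠ 1 := by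
  rcases l with _ | ⟨p, l⟩
  · have h1 : tk k ([] : List ℕ).tail = 1 := rfl
    rw [h1] at hN
    have h2 : 1 ≤ k ^ (N + 1) := Nat.one_le_pow _ _ (by omega)
    omega
  have : Fact p.Prime := ⟨hl p List.mem_cons_self⟩
  rw [List.tail_cons] at hN
  have hcf : Fintype.card (Fin k) = k := Fintype.card_fin k
  obtain ⟨G, _, S, hinf, hpg, hSc, hcl, hcond, hR⟩ :=
    tower_inf (Fin k) (by rw [hcf]; exact hk) p l (fun r hr => hl r (List.mem_cons_of_mem _ hr)) N (by rw [hcf]; exact hN)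
  rw [hcf] at hSc
  obtain ⟨G', _, S', hinf', hpg', hSc', hcl', hcond', hR'⟩ :=
    pad_k (p :: l) p N (l.prod * p) k (dvd_mul_left _ _) G List.mem_cons_self hpg S hSc hcl hcond hR
  have hcn : NLB.Cond N n S' := by
    intro w hw hx
    rw [List.prod_cons, mul_comm] at hn
    obtain ⟨c, rfl⟩ := hn
    rw [pow_mul, hcond' w hw hx, one_pow]
  refine ⟨fun C => ?_, G', inferInstance, S', hinf', hpg', hSc', hcl', hcn, hR'⟩
  obtain ⟨H, _, S'', h1, h7, h2, h3, h4, h5, h6⟩ := NLV.large_sol (p :: l) N n G' hpg' S' hcl' hcn hR' C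
  exact ⟨H, inferInstance, S'', h1, h7, h2, h3.trans hSc', h4, h5, h6⟩

end NLK
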