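import Pool.Agent.Lib.NLK.Defs

/-!
# NLK / Mul: powers of a two-sided ideal

PROOF IN WORDS. `Iw (n+1) = Iw n * I`, `Iw 0 = ⊤`. Model: `NLB/Aug.lean` (`aug_l`, `aug_r`, `mul_mem_A`, `A_anti`, `pow_mem_A`), the same proofs with `I` in place of the kernel of `eps` (`TwoSided` gives closure under left and right multiplication; `Submodule.mul_induction_on`).
`Iw_one`: `⊤ * I ≤ I` and `x = 1 * x`. `Iw_pow`: `x ^ s ∈ Iw s` by induction (`pow_succ`, `Submodule.mul_mem_mul`). `A_le_Iw`: first `A (i + j) ≤ A i * A j` (induction on `j`: `A (i + 0) = A i ≤ A i * A 0`, `x = x * 1`;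
`A (i + (j+1)) = A (i+j) * D ≤ A i * A j * D = A i * A (j+1)`), then induction on `n`: `A (c * (n+1)) = A (c*n + c) ≤ A (c*n) * A c ≤ Iw n * I`.
-/

set_option autoImplicit false

namespace NLK

open Module

variable (κ : Type) (p : ℕ) [Fact p.Prime]

private theorem mu_l (I : Submodule (ZMod p) (R κ p)) {n : ℕ} (a : R κ p) {x : R κ p} (hx : x ∈ Iw κ p I n) : a * x ∈ Iw κ p I n := by
  induction n generalizing x with
  | zero => exact Submodule.mem_top
  | succ n ih =>
    refine Submodule.mul_induction_on (C := fun x => a * x ∈ Iw κ p I (n + 1)) hx (fun m hm i hi => ?_) fun x y hx hy => ?_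
    · rw [← mul_assoc]
      exact Submodule.mul_mem_mul (ih hm) hi
    · rw [mul_add]
      exact Submodule.add_mem _ hx hy

private theorem mu_r (I : Submodule (ZMod p) (R κ p)) (hI : TwoSided κ p I) {n : ℕ} (a : R κ p) {x : R κ p} (hx : x ∈ Iw κ p I n) :
    x * a ∈ Iw κ p I n := by
  cases n with
  | zero => exact Submodule.mem_top
  | succ n =>
    refine Submodule.mul_induction_on (C := fun x => x * a ∈ Iw κ p I (n + 1)) hx (fun m hm i hi => ?_) fun x y hx hy => ?_
    · rw [mul_assoc]
      exact Submodule.mul_mem_mul hm (hI.r a i hi)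
    · rw [add_mul]
      exact Submodule.add_mem _ hx hy

private theorem mu_s (I : Submodule (ZMod p) (R κ p)) (hI : TwoSided κ p I) (n : ℕ) : Iw κ p I (n + 1) ≤ Iw κ p I n := by
  intro x hx
  exact Submodule.mul_induction_on (C := fun x => x ∈ Iw κ p I n) hx (fun m hm i _ => mu_r κ p I hI i hm)
    fun x y hx hy => Submodule.add_mem _ hx hy

theorem Iw_two (I : Submodule (ZMod p) (R κ p)) (hI : TwoSided κ p I) (n : ℕ) : TwoSided κ p (Iw κ p I n) := by
  exact ⟨fun a x hx => mu_l κ p I a hx, fun a x hx => mu_r κ p I hI a hx⟩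

theorem Iw_mul (I : Submodule (ZMod p) (R κ p)) (hI : TwoSided κ p I) {m n : ℕ} {a b : R κ p} (ha : a ∈ Iw κ p I m) (hb : b ∈ Iw κ p I n) :
    a * b ∈ Iw κ p I (m + n) := by
  induction n generalizing b with
  | zero => exact mu_r κ p I hI b ha
  | succ n ih =>
    refine Submodule.mul_induction_on (C := fun x => a * x ∈ Iw κ p I (m + (n + 1))) hb (fun y hy i hi => ?_) fun x y hx hy => ?_
    · rw [← mul_assoc]
      exact Submodule.mul_mem_mul (ih hy) hi
    · rw [mul_add]
      exact Submodule.add_mem _ hx hy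

theorem Iw_anti (I : Submodule (ZMod p) (R κ p)) (hI : TwoSided κ p I) {m n : ℕ} (h : m ≤ n) : Iw κ p I n ≤ Iw κ p I m := by
  exact antitone_nat_of_succ_le (mu_s κ p I hI) h

theorem Iw_one (I : Submodule (ZMod p) (R κ p)) (hI : TwoSided κ p I) : Iw κ p I 1 = I := by
  refine le_antisymm (fun x hx => ?_) fun x hx => ?_
  · exact Submodule.mul_induction_on (C := fun x => x ∈ I) hx (fun m _ i hi => hI.l m i hi)
      fun x y hx hy => Submodule.add_mem _ hx hy
  · have h := Submodule.mul_mem_mul (M := Iw κ p I 0) (N := I) (m := (1 : R κ p)) (n := x) Submodule.mem_top hx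
    rwa [one_mul] at h

theorem Iw_pow (I : Submodule (ZMod p) (R κ p)) {x : R κ p} (hx : x ∈ I) (s : ℕ) : x ^ s ∈ Iw κ p I s := by
  induction s with
  | zero => exact Submodule.mem_top
  | succ s ih =>
    rw [pow_succ]
    exact Submodule.mul_mem_mul ih hx

end NLK
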