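import Pool.Agent.Lib.NLK.Wsc
import Pool.Agent.Lib.NLK.Cnt
import Pool.Agent.Lib.NLK.Dmp
import Pool.Agent.Lib.NLK.Gnr
import Pool.Agent.Lib.NLK.Mul

/-!
# NLK / Frn: the free basis of a left ideal of finite codimension
-/

set_option autoImplicit false

namespace NLK

open Module

variable (κ : Type) [Fintype κ] [DecidableEq κ] (p : ℕ) [Fact p.Prime]

theorem exists_fr_fin (hk : 1 ≤ Fintype.card κ) (I : Submodule (ZMod p) (R κ p)) (hI : ∀ a x : R κ p, x ∈ I → a * x ∈ I)
    (hfin : FiniteDimensional (ZMod p) (R κ p ⧸ I)) (h1 : (1 : R κ p) ∉ I) :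
    ∃ (ι : Type) (_ : Fintype ι) (_ : DecidableEq ι) (β : ι → R κ p) (D : ι → (R κ p →ₗ[ZMod p] R κ p)),
      Fintype.card ι = (Fintype.card κ - 1) * finrank (ZMod p) (R κ p ⧸ I) + 1 ∧ IsFr κ p I β D := by
  classical
  obtain ⟨W, h0, hs, hli, hsp⟩ := exists_W κ p I hI hfin h1
  let bas : Basis W (ZMod p) (R κ p ⧸ I) := Basis.mk hli hsp
  have hbas : ∀ w : W, bas w = Submodule.Quotient.mk (mon κ p w.1) := fun w => Basis.mk_apply hli hsp w
  have hcard : finrank (ZMod p) (R κ p ⧸ I) = W.card := by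
    rw [finrank_eq_card_basis bas, Fintype.card_coe]
  let s : κ → W → R κ p := fun b w => ∑ v : W, (bas.repr (Submodule.Quotient.mk (X κ p b * mon κ p w.1))) v • mon κ p v.1
  have hsI : ∀ b w, X κ p b * mon κ p w.1 - s b w ∈ I := by
    intro b w
    rw [← Submodule.Quotient.mk_eq_zero, Submodule.Quotient.mk_sub, sub_eq_zero]
    have h2 : (Submodule.Quotient.mk (s b w) : R κ p ⧸ I) = ∑ v : W, (bas.repr (Submodule.Quotient.mk (X κ p b * mon κ p w.1))) v • bas v := by
      rw [← Submodule.mkQ_apply, map_sum]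
      refine Finset.sum_congr rfl fun v _ => ?_
      rw [map_smul, hbas, Submodule.mkQ_apply]
    rw [h2, bas.sum_repr]
  let β : {x : κ × W // x.1 :: x.2.1 ∉ W} → R κ p := fun i => X κ p i.1.1 * mon κ p i.1.2.1 - s i.1.1 i.1.2
  have hβ : ∀ i, β i ∈ I := fun i => hsI _ _
  let τ : κ → ((R κ p ⧸ I) →ₗ[ZMod p] ({x : κ × W // x.1 :: x.2.1 ∉ W} → R κ p)) := fun b =>
    bas.constr (ZMod p) (fun w => fun i => if i.1 = (b, w) then 1 else 0)
  have hτ : ∀ b (w : W) i, τ b (Submodule.Quotient.mk (mon κ p w.1)) i = if i.1 = (b, w) then 1 else 0 := by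
    intro b w i
    have h2 := bas.constr_basis (ZMod p) (fun w => fun (i : {x : κ × W // x.1 :: x.2.1 ∉ W}) => if i.1 = (b, w) then (1 : R κ p) else 0) w
    rw [hbas] at h2
    exact congrFun h2 i
  obtain ⟨d, hd1, hdX, hdI⟩ := exists_d κ p I hI τ
  have hmon : ∀ b w, mon κ p (b :: w) = X κ p b * mon κ p w := by
    intro b w
    simp [mon]
  have hdm : ∀ w, w ∈ W → d (mon κ p w) = 0 := by
    intro w
    induction w with
    | nil =>
      intro _
      have h2 : mon κ p [] = 1 := by simp [mon]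
      rw [h2, hd1]
    | cons b w ih =>
      intro hw
      funext i
      rw [hmon, hdX, ih (hs b w hw), hτ b ⟨w, hs b w hw⟩ i]
      have hne : ¬ i.1 = (b, ⟨w, hs b w hw⟩) := by
        intro h
        exact i.2 (by rw [h]; exact hw)
      rw [if_neg hne]
      simp
  have hds : ∀ b w, d (s b w) = 0 := by
    intro b w
    show d (∑ v : W, (bas.repr (Submodule.Quotient.mk (X κ p b * mon κ p w.1))) v • mon κ p v.1) = 0
    rw [map_sum]
    refine Finset.sum_eq_zero fun v _ => ?_
    rw [map_smul, hdm v.1 v.2, smul_zero]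
  have hdβ : ∀ i j, d (β j) i = if i = j then 1 else 0 := by
    intro i j
    show d (X κ p j.1.1 * mon κ p j.1.2.1 - s j.1.1 j.1.2) i = _
    rw [map_sub, hds, sub_zero, hdX, hdm _ j.1.2.2, hτ j.1.1 j.1.2 i]
    have h3 : ((j.1.1, j.1.2) : κ × W) = j.1 := rfl
    rw [h3]
    by_cases h : i = j
    · rw [if_pos h, if_pos (congrArg Subtype.val h)]
      simp
    · rw [if_neg h, if_neg fun h4 => h (Subtype.ext h4)]
      simp
  have hdual : ∀ (i j : {x : κ × W // x.1 :: x.2.1 ∉ W}) (a : R κ p), d (a * β j) i = if i = j then a else 0 := by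
    intro i j a
    rw [hdI _ (hβ j) a i, hdβ]
    split_ifs <;> simp
  refine ⟨{x : κ × W // x.1 :: x.2.1 ∉ W}, inferInstance, inferInstance, β, fun i => (LinearMap.proj i).comp d, ?_, ?_, ?_, ?_⟩
  · rw [hcard, ← card_nt κ hk W h0 hs]
  · exact hβ
  · intro x hx
    obtain ⟨a, ha⟩ := gen_I κ p I hI W h0 hli β hβ (fun b w hw => by
      by_cases h : b :: w ∈ W
      · refine Submodule.mem_sup_left (Submodule.subset_span ⟨b :: w, h, ?_⟩)
        rw [hmon]
      · have h4 : X κ p b * mon κ p w = s b ⟨w, hw⟩ + β ⟨(b, ⟨w, hw⟩), h⟩ := by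
          show _ = s b ⟨w, hw⟩ + (X κ p b * mon κ p w - s b ⟨w, hw⟩)
          abel
        rw [h4]
        refine Submodule.add_mem_sup ?_ (Submodule.subset_span ⟨_, rfl⟩)
        exact Submodule.sum_mem _ fun v _ => Submodule.smul_mem _ _ (Submodule.subset_span ⟨v.1, v.2, rfl⟩)) x hx
    have h5 : ∀ i, d x i = a i := by
      intro i
      rw [ha, map_sum, Finset.sum_apply, Finset.sum_eq_single i]
      · rw [hdual, if_pos rfl]
      · intro j _ hj
        rw [hdual, if_neg hj.symm]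
      · intro h
        exact absurd (Finset.mem_univ i) h
    show x = ∑ i, d x i * β i
    simp only [h5]
    exact ha
  · intro i j a
    exact hdual i j a

end NLK
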