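import Pool.Agent.Lib.NLK.Ik

/-!
# NLK / Sur: the relation module is the image of the subgroup

PROOF IN WORDS. The set of the `x` with the property is closed under addition and under `ZMod p`, modulo `Q = IK * Dl` (`Q` is closed under addition; note `IK * IK ≤ Q` by `IK_le`): `(u k - 1) + (u l - 1) = (u (k*l) - 1) - (u k - 1) * (u l - 1)`, the last term in `IK * IK ≤ Q`; for a scalar `c = (n : ZMod p)` repeat `n` times (`k^n`; induction on `n`), zero: `k = 1`.
Generators: `u g * (u k - 1) = (u (g*k*g⁻¹) - 1) * u g = (u (g*k*g⁻¹) - 1) + (u (g*k*g⁻¹) - 1) * (u g - 1)`, the last term in `IK * Dl` (`Submodule.mul_mem_mul`, `IK_mem`, `eps (u g - 1) = 0`), `g*k*g⁻¹ ∈ K` by normality. Use `Submodule.span_induction`.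
-/

set_option autoImplicit false

namespace NLK

open Module

variable (κ : Type) (p : ℕ) [Fact p.Prime]

private theorem sur_mul (K : Subgroup (FreeGroup κ)) {a b : R κ p} (ha : a ∈ IK κ p K) (hb : b ∈ Dl κ p) :
    a * b ∈ IK κ p K * Dl κ p := Submodule.mul_mem_mul ha hb

private theorem sur_add (K : Subgroup (FreeGroup κ)) {x y : R κ p} (hx : ∃ k ∈ K, x - (u κ p k - 1) ∈ IK κ p K * Dl κ p)
    (hy : ∃ k ∈ K, y - (u κ p k - 1) ∈ IK κ p K * Dl κ p) : ∃ k ∈ K, x + y - (u κ p k - 1) ∈ IK κ p K * Dl κ p := by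
  obtain ⟨k, hk, h1⟩ := hx
  obtain ⟨l, hl, h2⟩ := hy
  refine ⟨k * l, K.mul_mem hk hl, ?_⟩
  have h3 : (u κ p k - 1) * (u κ p l - 1) ∈ IK κ p K * Dl κ p :=
    sur_mul κ p K (IK_mem κ p K k hk) (IK_le κ p K (IK_mem κ p K l hl))
  have h4 : x + y - (u κ p (k * l) - 1) =
      (x - (u κ p k - 1)) + (y - (u κ p l - 1)) - (u κ p k - 1) * (u κ p l - 1) := by
    rw [u_mul]
    noncomm_ring
  rw [h4]
  exact Submodule.sub_mem _ (Submodule.add_mem _ h1 h2) h3

private theorem sur_nsmul (K : Subgroup (FreeGroup κ)) {x : R κ p} (hx : ∃ k ∈ K, x - (u κ p k - 1) ∈ IK κ p K * Dl κ p)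
    (n : ℕ) : ∃ k ∈ K, n • x - (u κ p k - 1) ∈ IK κ p K * Dl κ p := by
  induction n with
  | zero => exact ⟨1, K.one_mem, by rw [u_one, zero_smul, sub_self, sub_zero]; exact Submodule.zero_mem _⟩
  | succ n ih => rw [succ_nsmul]; exact sur_add κ p K ih hx

theorem sur_IK (K : Subgroup (FreeGroup κ)) (hK : K.Normal) (x : R κ p) (hx : x ∈ IK κ p K) :
    ∃ k ∈ K, x - (u κ p k - 1) ∈ IK κ p K * Dl κ p := by
  unfold IK at hx
  refine Submodule.span_induction (p := fun x _ => ∃ k ∈ K, x - (u κ p k - 1) ∈ IK κ p K * Dl κ p) ?_ ?_ ?_ ?_ hx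
  · rintro y ⟨g, k, hk, rfl⟩
    have hk' : g * k * g⁻¹ ∈ K := hK.conj_mem k hk g
    refine ⟨g * k * g⁻¹, hk', ?_⟩
    have h1 : (u κ p (g * k * g⁻¹) - 1) * (u κ p g - 1) ∈ IK κ p K * Dl κ p := by
      apply sur_mul κ p K (IK_mem κ p K _ hk')
      show eps κ p (u κ p g - 1) = 0
      rw [map_sub, eps_u, map_one, sub_self]
    have h2 : u κ p g * u κ p k = u κ p (g * k * g⁻¹) * u κ p g := by
      rw [← u_mul, ← u_mul, inv_mul_cancel_right]
    have h3 : u κ p g * (u κ p k - 1) - (u κ p (g * k * g⁻¹) - 1) = (u κ p (g * k * g⁻¹) - 1) * (u κ p g - 1) := by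
      have h4 : u κ p g * (u κ p k - 1) = u κ p g * u κ p k - u κ p g := by noncomm_ring
      rw [h4, h2]
      noncomm_ring
    rw [h3]
    exact h1
  · exact ⟨1, K.one_mem, by rw [u_one, sub_self, sub_zero]; exact Submodule.zero_mem _⟩
  · intro a b _ _ h1 h2
    exact sur_add κ p K h1 h2
  · intro c a _ h1
    have h2 := sur_nsmul κ p K h1 c.val
    have h3 : c.val • a = c • a := by
      rw [← Nat.cast_smul_eq_nsmul (ZMod p), ZMod.natCast_val, ZMod.cast_id', id]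
    rw [← h3]
    exact h2

end NLK
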